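import Pool.Agent.Q109.MinSep.Sep

namespace Pool.Agent.Results.MP_89ca7b_co.LongHoles

open SimpleGraph

/-- `H` is an induced minor of `G`: there are pairwise disjoint connected vertex sets, one for
each vertex of `H`, two of which are joined by an edge exactly when the vertices are adjacent. -/
def IsInducedMinor {W V : Type} (H : SimpleGraph W) (G : SimpleGraph V) : Prop :=
  ∃ bag : W → Set V, (∀ x, (G.induce (bag x)).Connected) ∧
    (∀ x y, x ≠ y → Disjoint (bag x) (bag y)) ∧
    (∀ x y, x ≠ y → (H.Adj x y ↔ ∃ u ∈ bag x, ∃ v ∈ bag y, G.Adj u v))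

/-- `G` has a clique cutset: a (possibly empty) clique whose removal disconnects `G`. -/
def HasCliqueCutset {V : Type} (G : SimpleGraph V) : Prop :=
  ∃ Q : Set V, G.IsClique Q ∧ ¬ (G.induce Qᶜ).Preconnected

/-- `S` is an `(a, b)`-separator. -/
def IsSep {V : Type} (G : SimpleGraph V) (a b : V) (S : Set V) : Prop :=
  ∃ (ha : a ∈ Sᶜ) (hb : b ∈ Sᶜ), ¬ (G.induce Sᶜ).Reachable ⟨a, ha⟩ ⟨b, hb⟩

/-- `S` is a minimal separator: an inclusion-minimal `(a, b)`-separator for some pair of
non-adjacent vertices. -/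
def IsMinSep {V : Type} (G : SimpleGraph V) (S : Set V) : Prop :=
  ∃ a b, a ≠ b ∧ ¬ G.Adj a b ∧ IsSep G a b S ∧ ∀ T, T ⊆ S → IsSep G a b T → T = S

/-- `G` contains a hole with `n` vertices. -/
def HasHole {V : Type} (G : SimpleGraph V) (n : ℕ) : Prop :=
  4 ≤ n ∧ ∃ S : Set V, Nonempty (G.induce S ≃g cycleGraph n)

open Q109.MinSep

theorem no_k23 {m k : ℕ} (hm : 4 ≤ m) :
    ¬ IsInducedMinor (completeBipartiteGraph (Fin 2) (Fin 3)) (GG m k) := by
  rintro ⟨bag, hc, hd, ha⟩
  apply no_model hm (fun i => bag (.inl i)) (fun j => bag (.inr j))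
  refine ⟨fun i => hc _, ?_, ?_, ?_, ?_, ?_⟩
  · intro j
    obtain ⟨x⟩ := (hc (.inr j)).nonempty
    exact ⟨x.1, x.2⟩
  · intro i j
    have h := (ha (.inl i) (.inr j) (by simp)).mp (by simp)
    obtain ⟨u, hu, v, hv, huv⟩ := h
    exact ⟨u, hu, v, hv, huv⟩
  · intro x hx y hy
    have h01 : (.inl 0 : Fin 2 ⊕ Fin 3) ≠ .inl 1 := by decide
    refine ⟨fun h => ?_, fun h => ?_⟩
    · have := (ha _ _ h01).mpr ⟨x, hx, y, hy, h⟩
      simp at this
    · subst h
      exact Set.disjoint_left.mp (hd _ _ h01) hx hy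
  · intro i j hij x hx y hy
    have hne : (.inr i : Fin 2 ⊕ Fin 3) ≠ .inr j := fun h => hij (Sum.inr_injective h)
    refine ⟨fun h => ?_, fun h => ?_⟩
    · have := (ha _ _ hne).mpr ⟨x, hx, y, hy, h⟩
      simp at this
    · subst h
      exact Set.disjoint_left.mp (hd _ _ hne) hx hy
  · intro i j x hx hx'
    exact Set.disjoint_left.mp (hd (.inl i) (.inr j) (by simp)) hx hx'

/-- For every polynomial `p` and every `k` there is a finite graph with no clique cutset and no
`K_{2,3}` induced minor, with more than `p(|V|)` minimal separators and a hole of length at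
least `k`. -/
theorem result (p : Polynomial ℝ) (k : ℕ) :
    ∃ (V : Type) (_ : Fintype V) (G : SimpleGraph V),
      ¬ HasCliqueCutset G ∧
      ¬ IsInducedMinor (completeBipartiteGraph (Fin 2) (Fin 3)) G ∧
      p.eval (Fintype.card V : ℝ) < ({S | IsMinSep G S}.ncard : ℝ) ∧
      ∃ n, k ≤ n ∧ HasHole G n := by
  obtain ⟨l, hl2, hl⟩ := poly_beaten p (k + 4)
  refine ⟨Vx (k + 4) l, inferInstance, GG (k + 4) l, ?_, no_k23 (by omega), ?_,
    k + 4, by omega, by omega, hole⟩
  · rintro ⟨Q, hQ, hn⟩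
    exact hn (no_clique_cutset (by omega) hl2 Q hQ)
  · have hcard : Fintype.card (Vx (k + 4) l) = k + 4 + 2 * l := by
      simp only [Vx, Fintype.card_sum, Fintype.card_fin]
      ring
    rw [hcard]
    refine lt_of_lt_of_le hl ?_
    exact_mod_cast (many (m := k + 4) (k := l))

end Pool.Agent.Results.MP_89ca7b_co.LongHoles
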